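import Pool.Agent.Helper46.WR.Main2

/-!
# The topological lower bound of Eremenko and Gabrielov is sharp for planes

For every odd `n ≥ 5` and `k ∈ {2, n - 2}` the bound `σ_{k,n}` for the number of real points in the
fibres of the Wronski map of `Gr(k, ℝ_n[t])` is sharp.
-/

namespace Pool.Agent.Results.MP_f469be_ag.SharpTwo

open Pool.Agent.Helper46.WR

theorem result (k n : ℕ) (hn : Odd n) (h5 : 5 ≤ n) (hk : k = 2 ∨ k = n - 2) : Sharp k n :=
  sharp_two_or k n hn h5 hk

end Pool.Agent.Results.MP_f469be_ag.SharpTwo
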